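import Pool.Agent.Y443.PXF
import Pool.Agent.Helper292.ForceCH

/-!
R. Pol's question on the tightness of `P(X)` at Dirac measures: the answer is consistently
negative.  For the class of Corson compact spaces a positive answer is equivalent to Martin's
axiom for measure algebras and `ℵ₁` dense sets; the continuum hypothesis refutes it.
-/

open MeasureTheory Set Topology Filter

namespace Pool.Agent.Results.MP_aebb62_gt.NegativeUnderCH

open Pool.Agent.Y443.PX

/-- (1) The continuum hypothesis can be forced (with `ω₁` preserved).
(2) Under the continuum hypothesis the answer to the question is negative, in the literal form of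
the problem.
(3) More precisely, if some compact Hausdorff space with a regular Borel probability measure is
covered by `ℵ₁` null sets, then there are a Corson compact (hence countably tight) space `X`, a
point `x` and an `ω₁`-sequence of regular Borel probability measures converging to the Dirac
measure at `x`, whose Dirac measure is in the closure of no countable part of the sequence.
(4) In ZFC: no compact Hausdorff space with a regular Borel probability measure is covered by
`ℵ₁` null sets if and only if for every Corson compact `X` and every `x` the space `P(X)` has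
countable tightness at the Dirac measure at `x`. -/
theorem result :
    (∃ (P : Type) (_ : Preorder P), Nonempty P ∧ ∀ p : P,
      p ∈ Pool.Agent.Helper292.ForceCH.OmegaOnePreserved P ∧
      p ∈ Pool.Agent.Helper292.ForceCH.CHHolds P) ∧
    (Cardinal.continuum.{0} = Cardinal.aleph 1 →
      ¬ ∀ (X : Type) [TopologicalSpace X] [CompactSpace X] [T2Space X]
        [MeasurableSpace X] [BorelSpace X],
        (∀ (S : Set X) (y : X), y ∈ closure S → ∃ T ⊆ S, T.Countable ∧ y ∈ closure T) →
        ∀ (x : X) (A : Set (ProbabilityMeasure X)),
          (∀ μ ∈ A, (μ : Measure X).Regular) →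
          (⟨Measure.dirac x, inferInstance⟩ : ProbabilityMeasure X) ∈ closure A →
          ∃ B ⊆ A, B.Countable ∧
            (⟨Measure.dirac x, inferInstance⟩ : ProbabilityMeasure X) ∈ closure B) ∧
    (¬ NoNullCover →
      ∃ (X : Type) (_ : TopologicalSpace X) (_ : MeasurableSpace X) (_ : BorelSpace X),
        IsCorson X ∧ CountablyTight X ∧
        ∃ (x : X) (ν : (Cardinal.aleph.{0} 1).ord.ToType → ProbabilityMeasure X),
          (∀ i, (ν i : Measure X).Regular) ∧ Tendsto ν atTop (𝓝 (diracP x)) ∧
          ∀ B ⊆ range ν, B.Countable → diracP x ∉ closure B) ∧
    (NoNullCover ↔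
      ∀ (X : Type) [TopologicalSpace X] [MeasurableSpace X] [BorelSpace X], IsCorson X →
        ∀ x : X, TightAtDirac X x) := by
  refine ⟨?_, ?_, fun h => negative h, equivalence⟩
  · obtain ⟨P, i, h1, h2⟩ := Pool.Agent.Helper292.ForceCH.exists_forcing
    exact ⟨P, i, h1, fun p => ⟨(h2 p).1, (h2 p).2.2⟩⟩
  · intro hCH h
    refine not_noNullCover_of_ch hCH (equivalence.2 ?_)
    intro X _ _ _ hX x A hA hx
    have hct := hX.countablyTight
    obtain ⟨hc, ht, _⟩ := hX
    exact h X hct x A hA hx

end Pool.Agent.Results.MP_aebb62_gt.NegativeUnderCH
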